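import Pool.Agent.Helper27.BG.St4

/-!
# BG module CS1 (volume of the cells cs1)
-/

set_option autoImplicit false

noncomputable section

namespace Pool.Agent.Helper27.BG

open Finset MeasureTheory

lemma cs1_eq_preimage {κ : Type} [Fintype κ] (i : κ → ℕ) (t : ℕ) (h : ∑ h, i h ≤ t) :
    cs1 i t = (fun u : κ → ℝ => (1000 : ℝ) • u) ⁻¹'
      ((fun x : κ → ℝ => x + fun h => -(i h : ℝ)) ⁻¹' IH κ (t - ∑ h, i h)) := by
  ext u
  simp only [cs1, IH, Set.mem_ofPred_eq, Set.mem_preimage, Pi.add_apply, Pi.smul_apply, smul_eq_mul]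
  have hsum : ∑ k, (1000 * u k + -(i k : ℝ)) = 1000 * ∑ k, u k - ((∑ k, i k : ℕ) : ℝ) := by
    rw [Finset.sum_add_distrib, Finset.sum_neg_distrib, ← Finset.mul_sum]
    push_cast
    ring
  rw [hsum]
  constructor
  · rintro ⟨h1, h2⟩
    refine ⟨fun k => ?_, ?_⟩
    · have h3 := (Nat.floor_eq_iff (by have := (h1 k).1; positivity : (0 : ℝ) ≤ 1000 * u k)).1
        (h1 k).2
      constructor <;> linarith [h3.1, h3.2]
    · rw [Nat.floor_sub_natCast, h2]
  · rintro ⟨h1, h2⟩
    have h0 : ∀ k, 0 ≤ 1000 * u k := by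
      intro k
      have := (h1 k).1
      have h4 : (0 : ℝ) ≤ i k := Nat.cast_nonneg _
      linarith
    refine ⟨fun k => ⟨by linarith [h0 k], ?_⟩, ?_⟩
    · rw [Nat.floor_eq_iff (h0 k)]
      constructor <;> linarith [(h1 k).1, (h1 k).2]
    · rw [Nat.floor_sub_natCast] at h2
      have h5 : ((∑ k, i k : ℕ) : ℝ) ≤ 1000 * ∑ k, u k := by
        push_cast
        rw [Finset.mul_sum]
        exact Finset.sum_le_sum (fun k _ => by linarith [(h1 k).1])
      have h6 : ∑ k, i k ≤ ⌊1000 * ∑ k, u k⌋₊ := Nat.le_floor h5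
      omega

lemma cs1_empty {κ : Type} [Fintype κ] (i : κ → ℕ) (t : ℕ) (h : ¬ ∑ h, i h ≤ t) :
    cs1 i t = ∅ := by
  ext u
  simp only [cs1, Set.mem_ofPred_eq, Set.mem_empty_iff_false, iff_false]
  rintro ⟨h1, h2⟩
  apply h
  rw [← h2]
  apply Nat.le_floor
  push_cast
  rw [Finset.mul_sum]
  refine Finset.sum_le_sum (fun k _ => ?_)
  rw [← (h1 k).2]
  exact Nat.floor_le (by have := (h1 k).1; positivity)

theorem hCs1 : StCs1 := by
  intro κ _ _ i t
  split_ifs with h
  · rw [cs1_eq_preimage i t h, Measure.addHaar_preimage_smul _ (by norm_num),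
      measure_preimage_add_right, ENNReal.toReal_mul, Module.finrank_fintype_fun_eq_card]
    congr 1
    rw [ENNReal.toReal_ofReal (abs_nonneg _), abs_of_nonneg (by positivity)]
    simp
  · rw [cs1_empty i t h]
    simp

end Pool.Agent.Helper27.BG
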