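import Pool.Agent.Helper27.BG.St4
import Pool.Agent.Helper90.MT.Lam

/-!
# BG module OKW (standing assumptions)
-/

set_option autoImplicit false

noncomputable section

namespace Pool.Agent.Helper27.BG

open Finset MeasureTheory
open Pool.Agent.Helper90.MT (lam mat wt szA prt szU VV DD piDD Ok EqD Avd)

lemma okw_gA (i : ℕ) : (gA i : ℝ) ≤ 2 ^ 15 := by
  have : gA i < 2 ^ 15 := Nat.mod_lt _ (by norm_num)
  exact_mod_cast this.le

lemma okw_gB (i : ℕ) : (gB i : ℝ) ≤ 2 ^ 15 := by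
  have : gB i < 2 ^ 15 := Nat.mod_lt _ (by norm_num)
  exact_mod_cast this.le

lemma okw_hA (i : ℕ) : (hA i : ℝ) ≤ 2 ^ 17 := by
  have : hA i < 2 ^ 17 := Nat.mod_lt _ (by norm_num)
  exact_mod_cast this.le

lemma okw_hB (i : ℕ) : (hB i : ℝ) ≤ 2 ^ 17 := by
  have : hB i < 2 ^ 17 := Nat.mod_lt _ (by norm_num)
  exact_mod_cast this.le

lemma okw_GA : GA < 2 ^ (15 * 1055) := by decide +kernel
lemma okw_GB : GB < 2 ^ (15 * 1055) := by decide +kernel
lemma okw_HA : HA < 2 ^ (17 * 1055) := by decide +kernel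
lemma okw_HB : HB < 2 ^ (17 * 1055) := by decide +kernel

set_option exponentiation.threshold 20000 in
lemma okw_gA0 (i : ℕ) (hi : 1055 ≤ i) : gA i = 0 := by
  unfold gA
  rw [Nat.div_eq_of_lt, Nat.zero_mod]
  exact okw_GA.trans_le (Nat.pow_le_pow_right (by norm_num) (by omega))

set_option exponentiation.threshold 20000 in
lemma okw_gB0 (i : ℕ) (hi : 1055 ≤ i) : gB i = 0 := by
  unfold gB
  rw [Nat.div_eq_of_lt, Nat.zero_mod]
  exact okw_GB.trans_le (Nat.pow_le_pow_right (by norm_num) (by omega))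

set_option exponentiation.threshold 20000 in
lemma okw_hA0 (i : ℕ) (hi : 1055 ≤ i) : hA i = 0 := by
  unfold hA
  rw [Nat.div_eq_of_lt, Nat.zero_mod]
  exact okw_HA.trans_le (Nat.pow_le_pow_right (by norm_num) (by omega))

set_option exponentiation.threshold 20000 in
lemma okw_hB0 (i : ℕ) (hi : 1055 ≤ i) : hB i = 0 := by
  unfold hB
  rw [Nat.div_eq_of_lt, Nat.zero_mod]
  exact okw_HB.trans_le (Nat.pow_le_pow_right (by norm_num) (by omega))

lemma okw_bound {ι : Type} [Fintype ι] (hc : Fintype.card ι = 49) (i : ι → ℕ) (t : ℕ) :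
    |FN i t| ≤ 2 * (2 ^ 17 * (2 ^ 15) ^ 49) := by
  unfold FN
  have h1 : ∏ h, (gB (i h) : ℝ) ≤ (2 ^ 15) ^ 49 := by
    calc ∏ h, (gB (i h) : ℝ) ≤ ∏ _h : ι, (2 ^ 15 : ℝ) :=
          Finset.prod_le_prod (fun _ _ => Nat.cast_nonneg _) (fun h _ => okw_gB (i h))
      _ = (2 ^ 15) ^ 49 := by rw [Finset.prod_const, Finset.card_univ, hc]
  have h2 : ∏ h, (gA (i h) : ℝ) ≤ (2 ^ 15) ^ 49 := by
    calc ∏ h, (gA (i h) : ℝ) ≤ ∏ _h : ι, (2 ^ 15 : ℝ) :=
          Finset.prod_le_prod (fun _ _ => Nat.cast_nonneg _) (fun h _ => okw_gA (i h))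
      _ = (2 ^ 15) ^ 49 := by rw [Finset.prod_const, Finset.card_univ, hc]
  have h1' : 0 ≤ ∏ h, (gB (i h) : ℝ) := Finset.prod_nonneg (fun _ _ => Nat.cast_nonneg _)
  have h2' : 0 ≤ ∏ h, (gA (i h) : ℝ) := Finset.prod_nonneg (fun _ _ => Nat.cast_nonneg _)
  have h3 : (hB t : ℝ) * ∏ h, (gB (i h) : ℝ) ≤ 2 ^ 17 * (2 ^ 15) ^ 49 :=
    mul_le_mul (okw_hB t) h1 h1' (by positivity)
  have h4 : (hA t : ℝ) * ∏ h, (gA (i h) : ℝ) ≤ 2 ^ 17 * (2 ^ 15) ^ 49 :=
    mul_le_mul (okw_hA t) h2 h2' (by positivity)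
  have h3' : 0 ≤ (hB t : ℝ) * ∏ h, (gB (i h) : ℝ) := mul_nonneg (Nat.cast_nonneg _) h1'
  have h4' : 0 ≤ (hA t : ℝ) * ∏ h, (gA (i h) : ℝ) := mul_nonneg (Nat.cast_nonneg _) h2'
  have h5 : (0 : ℝ) ≤ 2 ^ 17 * (2 ^ 15) ^ 49 := by positivity
  generalize (2 ^ 17 * (2 ^ 15) ^ 49 : ℝ) = X at *
  rw [abs_le]
  constructor <;> linarith

lemma okw_supp {ι : Type} [Fintype ι] (i : ι → ℕ) (t : ℕ) (h : FN i t ≠ 0) :
    (∀ k, i k < 1055) ∧ t < 1055 := by
  constructor
  · intro k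
    by_contra hk
    push Not at hk
    apply h
    unfold FN
    rw [Finset.prod_eq_zero (mem_univ k) (by rw [okw_gB0 _ hk]; simp),
      Finset.prod_eq_zero (mem_univ k) (by rw [okw_gA0 _ hk]; simp)]
    simp
  · by_contra hk
    push Not at hk
    apply h
    unfold FN
    rw [okw_hB0 _ hk, okw_hA0 _ hk]
    simp

lemma okw_prime (W M : ℕ) (i : Pw W M) : (pw W M i).Prime ∧ ¬ pw W M i ∣ W ∧ pw W M i ≤ M := by
  have h := i.2
  unfold Pw at h
  simp only [mem_filter, mem_range] at h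
  exact ⟨h.2.1, h.2.2.2, by unfold pw; omega⟩

lemma okw_large (w W M : ℕ) (hd : Dv w W) (i : Pw W M) : w < pw W M i := by
  obtain ⟨h1, h2, _⟩ := okw_prime W M i
  by_contra h
  exact h2 (hd.2 _ h1 (not_lt.1 h))

lemma okw_sum (w W M : ℕ) (hw : 1 ≤ w) (hd : Dv w W) (hM : w ≤ M) :
    ∑ i, 1 / (pw W M i : ℝ) ^ 2 ≤ (1 : ℝ) / w := by
  have h1 : ∑ i, 1 / (pw W M i : ℝ) ^ 2 = ∑ p ∈ Pw W M, ((p : ℝ) ^ 2)⁻¹ := by
    rw [← Finset.sum_coe_sort (Pw W M) (fun p => ((p : ℝ) ^ 2)⁻¹)]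
    apply Finset.sum_congr rfl
    intro i _
    simp [pw]
  rw [h1]
  calc ∑ p ∈ Pw W M, ((p : ℝ) ^ 2)⁻¹ ≤ ∑ p ∈ Ioc w M, ((p : ℝ) ^ 2)⁻¹ := by
        apply Finset.sum_le_sum_of_subset_of_nonneg
        · intro p hp
          have h2 := okw_large w W M hd ⟨p, hp⟩
          have h3 := (okw_prime W M ⟨p, hp⟩).2.2
          simp only [pw] at h2 h3
          exact Finset.mem_Ioc.2 ⟨h2, h3⟩
        · intro p _ _
          positivity
    _ ≤ (w : ℝ)⁻¹ - (M : ℝ)⁻¹ := sum_Ioc_inv_sq_le_sub (by omega) hM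
    _ ≤ 1 / w := by
        rw [one_div]
        have : (0 : ℝ) ≤ (M : ℝ)⁻¹ := by positivity
        linarith

lemma okw_log {ι : Type} [Fintype ι] [DecidableEq ι] (W M : ℕ) (a : Pw W M → Option ι) :
    1000 * ∑ h, ud M (prt (pw W M) a h) =
      1000 * (Real.log (szA (pw W M) a) / Real.log (RR M)) := by
  unfold ud
  congr 1
  rw [← Finset.sum_div]
  congr 1
  rw [Pool.Agent.Helper90.MT.LamAux.szA_eq]
  push_cast
  rw [Real.log_prod]
  intro h _
  have : prt (pw W M) a h ≠ 0 := by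
    unfold Pool.Agent.Helper90.MT.prt
    apply Finset.prod_ne_zero_iff.2
    intro i _
    split_ifs
    · exact (okw_prime W M i).1.ne_zero
    · exact one_ne_zero
  exact_mod_cast this

theorem hOkw : StOkw := by
  refine ⟨2 * (2 ^ 17 * (2 ^ 15) ^ 49), by positivity, ?_⟩
  intro ι _ _ hc
  refine ⟨fun i t => okw_bound hc i t, fun i t h => okw_supp i t h, ?_⟩
  intro sh w W v hw hG
  refine ⟨max w 2, ?_⟩
  intro M hM
  have hMw : w ≤ M := (le_max_left _ _).trans hM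
  have hM2 : 2 ≤ M := (le_max_right _ _).trans hM
  have hR : 1 < RR M := by
    unfold RR
    apply Real.one_lt_rpow
    · exact_mod_cast hM2
    · norm_num
  have hlR : 0 < Real.log (RR M) := Real.log_pos hR
  have hs0 : ∀ a : Pw W M → Option ι, 0 < (szA (pw W M) a : ℝ) := by
    intro a
    exact_mod_cast Pool.Agent.Helper90.MT.LamAux.szA_pos (pw W M) (fun i => (okw_prime W M i).1) a
  have hs1 : ∀ a : Pw W M → Option ι, 1 ≤ (szA (pw W M) a : ℝ) := by
    intro a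
    exact_mod_cast Pool.Agent.Helper90.MT.LamAux.szA_pos (pw W M) (fun i => (okw_prime W M i).1) a
  have key : ∀ (a : Pw W M → Option ι) (T : ℕ), totN M (prt (pw W M) a) < T ↔
      (szA (pw W M) a : ℝ) < RR M ^ ((T : ℝ) / 1000) := by
    intro a T
    unfold totN
    rw [okw_log, Nat.floor_lt (by
      have : 0 ≤ Real.log (szA (pw W M) a) := Real.log_nonneg (hs1 a)
      positivity), ← Real.log_lt_log_iff (hs0 a) (by positivity),
      Real.log_rpow (by positivity)]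
    constructor
    · intro h
      have h2 : 1000 * (Real.log (szA (pw W M) a) / Real.log (RR M)) * Real.log (RR M) <
          T * Real.log (RR M) := mul_lt_mul_of_pos_right h hlR
      have h3 : 1000 * (Real.log (szA (pw W M) a) / Real.log (RR M)) * Real.log (RR M) =
          1000 * Real.log (szA (pw W M) a) := by
        field_simp
      rw [h3] at h2
      linarith
    · intro h
      rw [← mul_div_assoc, div_lt_iff₀ hlR]
      linarith
  refine ⟨⟨fun i => (okw_prime W M i).1, ?_, ?_, ?_, hG.dv.1, ?_, hG.cop⟩,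
    okw_sum w W M (by omega) hG.dv hMw, hR, ?_, ?_⟩
  · intro i j h
    exact Subtype.ext h
  · intro i
    have := okw_large w W M hG.dv i
    omega
  · intro i h h' hne hmod
    have h1 := okw_large w W M hG.dv i
    have h2 := hG.lt h
    have h3 := hG.lt h'
    have h4 : sh h = sh h' := Nat.ModEq.eq_of_lt_of_lt hmod (h2.trans h1) (h3.trans h1)
    exact hne (hG.inj h4)
  · intro i
    exact (Nat.Prime.coprime_iff_not_dvd (okw_prime W M i).1).2 (okw_prime W M i).2.1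
  · intro a
    have := key a 1055
    push_cast at this
    exact this
  · intro a T h
    exact ((key a T).1 h).le

end Pool.Agent.Helper27.BG
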