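import Pool.Agent.Helper27.BG.St4
import Pool.Agent.Helper34.BG.M_OKW

/-!
# BG module ERR (error products)
-/

set_option autoImplicit false

noncomputable section

namespace Pool.Agent.Helper27.BG

open Finset MeasureTheory

lemma err_pow (K : ℕ) (x : ℝ) (hx0 : 0 ≤ x) (hx1 : x ≤ 1) :
    (1 + x) ^ K ≤ 1 + K * x + ((2 : ℝ) ^ K - 1 - K) * x ^ 2 := by
  induction K with
  | zero => simp
  | succ K ih =>
    have hc : (0 : ℝ) ≤ (2 : ℝ) ^ K - 1 - K := by
      have : ((K + 1 : ℕ) : ℝ) ≤ ((2 ^ K : ℕ) : ℝ) := by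
        exact_mod_cast Nat.lt_two_pow_self
      push_cast at this
      linarith
    set c : ℝ := (2 : ℝ) ^ K - 1 - K with hcd
    have h2 : (2 : ℝ) ^ (K + 1) - 1 - ((K + 1 : ℕ) : ℝ) = 2 * c + K := by
      rw [hcd]; push_cast; ring
    rw [h2, pow_succ]
    have h3 : (1 + x) ^ K * (1 + x) ≤ (1 + K * x + c * x ^ 2) * (1 + x) :=
      mul_le_mul_of_nonneg_right ih (by linarith)
    have h4 : c * x ^ 3 ≤ c * x ^ 2 := by
      apply mul_le_mul_of_nonneg_left _ hc
      nlinarith [sq_nonneg x, mul_nonneg (sq_nonneg x) (sub_nonneg.2 hx1)]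
    push_cast
    nlinarith [h3, h4]

lemma err_er (K D w W M : ℕ) (C : ℝ) (hw : 1 ≤ w) (hd : Dv w W) (hM : w ≤ M)
    (hC : ∏ i, (1 + 1 / (pw W M i : ℝ)) ≤ C * SS W M) :
    Er (pw W M) K D ≤ C ^ K * (Real.exp (D / w) - 1) * SS W M ^ K := by
  have hp : ∀ i, 0 < (pw W M i : ℝ) := fun i => by exact_mod_cast (okw_prime W M i).1.pos
  have h1 : ∏ i, (1 + (K : ℝ) / pw W M i + (D : ℝ) / (pw W M i : ℝ) ^ 2) ≤
      (∏ i, (1 + (K : ℝ) / pw W M i)) * ∏ i, (1 + (D : ℝ) / (pw W M i : ℝ) ^ 2) := by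
    rw [← Finset.prod_mul_distrib]
    apply Finset.prod_le_prod
    · intro i _
      have := hp i
      positivity
    · intro i _
      have h2 := hp i
      have : 0 ≤ (K : ℝ) / pw W M i * ((D : ℝ) / (pw W M i : ℝ) ^ 2) := by positivity
      nlinarith
  have h2 : ∏ i, (1 + (D : ℝ) / (pw W M i : ℝ) ^ 2) ≤ Real.exp (D / w) := by
    calc ∏ i, (1 + (D : ℝ) / (pw W M i : ℝ) ^ 2)
        ≤ ∏ i, Real.exp ((D : ℝ) / (pw W M i : ℝ) ^ 2) := by
          apply Finset.prod_le_prod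
          · intro i _
            have := hp i
            positivity
          · intro i _
            have := Real.add_one_le_exp ((D : ℝ) / (pw W M i : ℝ) ^ 2)
            linarith
      _ = Real.exp (D * ∑ i, 1 / (pw W M i : ℝ) ^ 2) := by
          rw [← Real.exp_sum, Finset.mul_sum]
          congr 1
          apply Finset.sum_congr rfl
          intro i _
          ring
      _ ≤ Real.exp (D / w) := by
          apply Real.exp_le_exp.2
          have := okw_sum w W M hw hd hM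
          calc (D : ℝ) * ∑ i, 1 / (pw W M i : ℝ) ^ 2 ≤ D * (1 / w) :=
                mul_le_mul_of_nonneg_left this (Nat.cast_nonneg _)
            _ = D / w := by ring
  have h3 : ∏ i, (1 + (K : ℝ) / pw W M i) ≤ (C * SS W M) ^ K := by
    calc ∏ i, (1 + (K : ℝ) / pw W M i) ≤ ∏ i, (1 + 1 / (pw W M i : ℝ)) ^ K := by
          apply Finset.prod_le_prod
          · intro i _
            have := hp i
            positivity
          · intro i _
            have h4 := hp i
            have h5 : (-2 : ℝ) ≤ 1 / (pw W M i : ℝ) := by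
              have : 0 ≤ 1 / (pw W M i : ℝ) := by positivity
              linarith
            have := one_add_mul_le_pow h5 K
            calc 1 + (K : ℝ) / pw W M i = 1 + K * (1 / (pw W M i : ℝ)) := by ring
              _ ≤ _ := this
      _ = (∏ i, (1 + 1 / (pw W M i : ℝ))) ^ K := Finset.prod_pow _ _ _
      _ ≤ (C * SS W M) ^ K := by
          apply pow_le_pow_left₀ _ hC
          apply Finset.prod_nonneg
          intro i _
          have := hp i
          positivity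
  have h4 : 0 ≤ ∏ i, (1 + (K : ℝ) / pw W M i) := by
    apply Finset.prod_nonneg
    intro i _
    have := hp i
    positivity
  have h5 : 0 ≤ Real.exp ((D : ℝ) / w) - 1 := by
    have := Real.one_le_exp (show (0 : ℝ) ≤ (D : ℝ) / w by positivity)
    linarith
  unfold Er
  calc ∏ i, (1 + (K : ℝ) / pw W M i + (D : ℝ) / (pw W M i : ℝ) ^ 2) -
      ∏ i, (1 + (K : ℝ) / pw W M i)
      ≤ (∏ i, (1 + (K : ℝ) / pw W M i)) * ∏ i, (1 + (D : ℝ) / (pw W M i : ℝ) ^ 2) -
        ∏ i, (1 + (K : ℝ) / pw W M i) := by linarith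
    _ ≤ (∏ i, (1 + (K : ℝ) / pw W M i)) * Real.exp (D / w) -
        ∏ i, (1 + (K : ℝ) / pw W M i) := by
          linarith [mul_le_mul_of_nonneg_left h2 h4]
    _ = (∏ i, (1 + (K : ℝ) / pw W M i)) * (Real.exp (D / w) - 1) := by ring
    _ ≤ (C * SS W M) ^ K * (Real.exp (D / w) - 1) := mul_le_mul_of_nonneg_right h3 h5
    _ = C ^ K * (Real.exp (D / w) - 1) * SS W M ^ K := by rw [mul_pow]; ring

lemma err_et (K W M : ℕ) : Et (pw W M) K ≤ Er (pw W M) K (2 ^ K) := by
  have hp : ∀ i, 1 ≤ (pw W M i : ℝ) := fun i => by exact_mod_cast (okw_prime W M i).1.one_le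
  unfold Et Er
  have : ∏ i, (1 + 1 / (pw W M i : ℝ)) ^ K ≤
      ∏ i, (1 + (K : ℝ) / pw W M i + ((2 ^ K : ℕ) : ℝ) / (pw W M i : ℝ) ^ 2) := by
    apply Finset.prod_le_prod
    · intro i _
      have := hp i
      positivity
    · intro i _
      have h1 := hp i
      have h0 : 0 < (pw W M i : ℝ) := by linarith
      have h2 := err_pow K (1 / (pw W M i : ℝ)) (by positivity) (by
        rw [div_le_one h0]; exact h1)
      refine h2.trans ?_
      have h3 : ((2 : ℝ) ^ K - 1 - K) * (1 / (pw W M i : ℝ)) ^ 2 ≤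
          (2 : ℝ) ^ K * (1 / (pw W M i : ℝ)) ^ 2 := by
        apply mul_le_mul_of_nonneg_right _ (by positivity)
        have : (0 : ℝ) ≤ K := Nat.cast_nonneg _
        linarith
      have h4 : (2 : ℝ) ^ K * (1 / (pw W M i : ℝ)) ^ 2 =
          ((2 ^ K : ℕ) : ℝ) / (pw W M i : ℝ) ^ 2 := by
        push_cast; ring
      have h5 : (K : ℝ) * (1 / (pw W M i : ℝ)) = (K : ℝ) / pw W M i := by ring
      linarith
  linarith

lemma err_w (K D : ℕ) (C ε : ℝ) (hε : 0 < ε) :
    ∃ w₀ : ℕ, ∀ w ≥ w₀, C ^ K * (Real.exp ((D : ℝ) / (w : ℝ)) - 1) ≤ ε := by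
  have h1 : Filter.Tendsto (fun w : ℕ => C ^ K * (Real.exp ((D : ℝ) / (w : ℝ)) - 1))
      Filter.atTop (nhds (C ^ K * (Real.exp 0 - 1))) := by
    apply Filter.Tendsto.const_mul
    apply Filter.Tendsto.sub_const
    exact (Real.continuous_exp.tendsto 0).comp (tendsto_const_div_atTop_nhds_zero_nat (D : ℝ))
  rw [Real.exp_zero, sub_self, mul_zero] at h1
  have h2 := h1.eventually (eventually_le_nhds hε)
  obtain ⟨w₀, hw₀⟩ := Filter.eventually_atTop.1 h2
  exact ⟨w₀, hw₀⟩

theorem hErr : StErr := by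
  intro hMer K D ε hε
  obtain ⟨C, hC0, hC⟩ := hMer
  obtain ⟨w₁, hw₁⟩ := err_w K D C ε hε
  obtain ⟨w₂, hw₂⟩ := err_w K (2 ^ K) C ε hε
  refine ⟨max (max w₁ w₂) 1, ?_⟩
  intro w hw W hd
  have hw1 : w₁ ≤ w := (le_max_left _ _).trans ((le_max_left _ _).trans hw)
  have hw2 : w₂ ≤ w := (le_max_right _ _).trans ((le_max_left _ _).trans hw)
  have hw3 : 1 ≤ w := (le_max_right _ _).trans hw
  obtain ⟨M₁, hM₁⟩ := hC W hd.1
  refine ⟨max M₁ w, ?_⟩
  intro M hM
  have hC1 := hM₁ M ((le_max_left _ _).trans hM)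
  have hM2 : w ≤ M := (le_max_right _ _).trans hM
  have hp : ∀ i, 0 < (pw W M i : ℝ) := fun i => by exact_mod_cast (okw_prime W M i).1.pos
  have hS : 0 < SS W M := by
    have h1 : (0 : ℝ) < ∏ i, (1 + 1 / (pw W M i : ℝ)) := by
      apply Finset.prod_pos
      intro i _
      have := hp i
      positivity
    have h2 : 0 < C * SS W M := h1.trans_le hC1
    exact (pos_iff_pos_of_mul_pos h2).1 hC0
  have hSK : 0 ≤ SS W M ^ K := by positivity
  constructor
  · exact (err_er K D w W M C hw3 hd hM2 hC1).trans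
      (mul_le_mul_of_nonneg_right (hw₁ w hw1) hSK)
  · exact (err_et K W M).trans ((err_er K (2 ^ K) w W M C hw3 hd hM2 hC1).trans
      (mul_le_mul_of_nonneg_right (hw₂ w hw2) hSK))

end Pool.Agent.Helper27.BG
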