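import Pool.Agent.Helper27.BG.St4

/-!
# BG module FIN (consecutive primes, pigeonhole)
-/

set_option autoImplicit false

noncomputable section

namespace Pool.Agent.Helper27.BG

open Finset MeasureTheory

theorem hFin : StFin := by
  classical
  intro hTwo hMod H hcard hadm
  by_contra hcon
  push Not at hcon
  have hfin : ∀ h ∈ H, ∀ h' ∈ H, h < h' → {n : ℕ | Cons2 n (h' - h)}.Finite := by
    intro h hh h' hh' hlt
    exact hcon h hh h' hh' hlt
  set D := H.sup id + 1 with hD
  have hHD : ∀ h ∈ H, h < D := fun h hh => Nat.lt_succ_of_le (Finset.le_sup (f := id) hh)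
  set E := range D \ H with hE
  have hcι : Fintype.card {x // x ∈ H} = 49 := by rw [Fintype.card_coe, hcard]
  obtain ⟨w₀, hw₀⟩ := hTwo {x // x ∈ H} (fun h => (h : ℕ)) hcι
  obtain ⟨W, v, hW0, hWp, -, -, hcop, hEq⟩ := hMod H E 1 0 (max w₀ D) one_pos
    (Finset.disjoint_sdiff) (fun h _ => Nat.coprime_one_right _) hadm
  have hG : Gd (fun h : {x // x ∈ H} => (h : ℕ)) (max w₀ D) W v := by
    refine ⟨Subtype.val_injective, fun h => ?_, ⟨hW0, hWp⟩, fun h => hcop h h.2⟩
    exact (hHD h h.2).trans_le (le_max_right _ _)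
  -- the finite exceptional set
  have hSfin : (⋃ p ∈ ((H ×ˢ H).filter (fun p : ℕ × ℕ => p.1 < p.2) : Finset (ℕ × ℕ)),
      {n : ℕ | Cons2 n (p.2 - p.1)}).Finite := by
    apply Set.Finite.biUnion (Finset.finite_toSet _)
    intro p hp
    simp only [mem_coe, mem_filter, mem_product] at hp
    exact hfin p.1 hp.1.1 p.2 hp.1.2 hp.2
  obtain ⟨B, hB⟩ := hSfin.bddAbove
  obtain ⟨n, hn, hnv, m, m', hmm, hp1, hp2⟩ := hw₀ _ (le_max_left w₀ D) W v hG (max (W + 1) (B + 1))
  have hnW : W < n := by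
    have := (le_max_left _ _).trans hn
    omega
  have hnB : B < n := by
    have := (le_max_right _ _).trans hn
    omega
  set PH := H.filter (fun h => (n + h).Prime) with hPH
  have hmP : (m : ℕ) ∈ PH := mem_filter.2 ⟨m.2, hp1⟩
  have hmP' : (m' : ℕ) ∈ PH := mem_filter.2 ⟨m'.2, hp2⟩
  have hmne : (m : ℕ) ≠ (m' : ℕ) := fun h => hmm (Subtype.ext h)
  set a := PH.min' ⟨_, hmP⟩ with ha
  have haP : a ∈ PH := Finset.min'_mem _ _
  have hex : (PH.erase a).Nonempty := by
    by_cases h : (m : ℕ) = a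
    · refine ⟨m', Finset.mem_erase.2 ⟨?_, hmP'⟩⟩
      rw [← h]
      exact hmne.symm
    · exact ⟨m, Finset.mem_erase.2 ⟨h, hmP⟩⟩
  set b := (PH.erase a).min' hex with hb
  have hbP : b ∈ PH.erase a := Finset.min'_mem _ _
  have hbP' : b ∈ PH := (Finset.mem_erase.1 hbP).2
  have hab : a < b := lt_of_le_of_ne (Finset.min'_le _ _ hbP') (Finset.mem_erase.1 hbP).1.symm
  have haH : a ∈ H := (mem_filter.1 haP).1
  have hbH : b ∈ H := (mem_filter.1 hbP').1
  have hcons : Cons2 (n + a) (b - a) := by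
    refine ⟨by omega, (mem_filter.1 haP).2, ?_, ?_⟩
    · have : n + a + (b - a) = n + b := by omega
      rw [this]
      exact (mem_filter.1 hbP').2
    · intro k hk1 hk2 hkp
      set e := k - n with he
      have hke : k = n + e := by omega
      by_cases heH : e ∈ H
      · have heP : e ∈ PH.erase a := by
          refine Finset.mem_erase.2 ⟨by omega, mem_filter.2 ⟨heH, ?_⟩⟩
          rw [← hke]
          exact hkp
        have := Finset.min'_le _ _ heP
        omega
      · have heE : e ∈ E := by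
          rw [hE]
          refine Finset.mem_sdiff.2 ⟨Finset.mem_range.2 ?_, heH⟩
          have := hHD b hbH
          omega
        obtain ⟨q, hq, hqW, hqe⟩ := hEq e heE
        have h1 : n + e ≡ v + e [MOD q] := (hnv.of_dvd hqW).add_right e
        have h2 : q ∣ n + e := (h1.dvd_iff dvd_rfl).2 hqe
        rw [← hke] at h2
        have h3 : q = k := (Nat.prime_dvd_prime_iff_eq hq hkp).1 h2
        have h4 : q ≤ W := Nat.le_of_dvd hW0 hqW
        omega
  have hmem : n + a ∈ (⋃ p ∈ ((H ×ˢ H).filter (fun p : ℕ × ℕ => p.1 < p.2) : Finset (ℕ × ℕ)),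
      {n : ℕ | Cons2 n (p.2 - p.1)}) := by
    simp only [Set.mem_iUnion]
    exact ⟨(a, b), mem_filter.2 ⟨mem_product.2 ⟨haH, hbH⟩, hab⟩, hcons⟩
  have := hB hmem
  omega

end Pool.Agent.Helper27.BG
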